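import Pool.Agent.H380.BG.Stm

/-!
# Poisson summation for the theta function of a lattice (project BG of helper380)
-/

set_option autoImplicit false

namespace Pool.Agent.H127.BG

open Complex MeasureTheory Filter Topology Set
open UpperHalfPlane hiding I
open Pool.Agent.H380.BG
open scoped ENNReal Real

/-- Gaussian sums over the integers -/
theorem sumG {c : ℝ} (hc : 0 < c) : Summable fun n : ℤ => Real.exp (-(c * (n : ℝ) ^ 2)) := by
  have h1 : 0 < ((I * (c / π : ℝ) : ℂ)).im := by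
    rw [Complex.mul_im, Complex.I_re, Complex.I_im, Complex.ofReal_re]
    have : 0 < c / π := by positivity
    simpa using this
  have h2 := ((summable_jacobiTheta₂_term_iff 0 (I * (c / π : ℝ))).2 h1).norm
  refine h2.congr fun n => ?_
  unfold jacobiTheta₂_term
  rw [Complex.norm_exp]
  congr 1
  have e : (2 * π * I * n * 0 + π * I * n ^ 2 * (I * ((c / π : ℝ) : ℂ)) : ℂ) =
      ((-(c * (n : ℝ) ^ 2) : ℝ) : ℂ) := by
    have hpi : (π : ℂ) ≠ 0 := by exact_mod_cast Real.pi_ne_zero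
    push_cast
    field_simp
    linear_combination ((n : ℂ) ^ 2 * c) * Complex.I_sq
  rw [e, Complex.ofReal_re]

/-- the product of two Gaussian sums -/
theorem sumGG {c d : ℝ} (hc : 0 < c) (hd : 0 < d) :
    Summable fun p : ℤ × ℤ => Real.exp (-(c * (p.1 : ℝ) ^ 2)) * Real.exp (-(d * (p.2 : ℝ) ^ 2)) :=
  (sumG hc).mul_of_nonneg (sumG hd) (fun _ => (Real.exp_pos _).le) fun _ => (Real.exp_pos _).le

section

variable (x y : ℝ)

/-- the quadratic form -/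
noncomputable def Q (p : ℤ × ℤ) : ℝ := (p.1 : ℝ) ^ 2 * y + ((p.2 : ℝ) + p.1 * x) ^ 2 / y

theorem Q_low (hy : 0 < y) (p : ℤ × ℤ) : (p.1 : ℝ) ^ 2 + (p.2 : ℝ) ^ 2 ≤
    (1 / y + 2 * x ^ 2 / y + 2 * y) * Q x y p := by
  set m : ℝ := (p.1 : ℝ)
  set n : ℝ := (p.2 : ℝ)
  have hQ : Q x y p = m ^ 2 * y + (n + m * x) ^ 2 / y := rfl
  rw [hQ]
  have e : (1 / y + 2 * x ^ 2 / y + 2 * y) * (m ^ 2 * y + (n + m * x) ^ 2 / y) =
      m ^ 2 + 2 * x ^ 2 * m ^ 2 + 2 * (n + m * x) ^ 2 +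
        ((1 / y + 2 * x ^ 2 / y) * ((n + m * x) ^ 2 / y) + 2 * y * (m ^ 2 * y)) := by
    field_simp
    ring
  rw [e]
  have h1 : 0 ≤ (1 / y + 2 * x ^ 2 / y) * ((n + m * x) ^ 2 / y) + 2 * y * (m ^ 2 * y) := by
    positivity
  nlinarith [sq_nonneg (n + m * x + m * x)]

/-- the summands -/
noncomputable def E (t : ℝ) (p : ℤ × ℤ) : ℝ := Real.exp (-(π * t * Q x y p))

theorem E_sum (hy : 0 < y) {t : ℝ} (ht : 0 < t) : Summable (E x y t) := by
  set K : ℝ := 1 / y + 2 * x ^ 2 / y + 2 * y with hK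
  have hKp : 0 < K := by positivity
  have hc : 0 < π * t / K := by positivity
  refine Summable.of_nonneg_of_le (fun p => (Real.exp_pos _).le) (fun p => ?_) (sumGG hc hc)
  unfold E
  rw [← Real.exp_add, Real.exp_le_exp]
  have h1 := Q_low x y hy p
  rw [← hK] at h1
  have h2 : π * t / K * ((p.1 : ℝ) ^ 2 + (p.2 : ℝ) ^ 2) ≤ π * t / K * (K * Q x y p) :=
    mul_le_mul_of_nonneg_left h1 hc.le
  have e : π * t / K * (K * Q x y p) = π * t * Q x y p := by
    field_simp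
  rw [e] at h2
  linarith

/-- the transformed summands -/
noncomputable def G (t : ℝ) (p : ℤ × ℤ) : ℂ :=
  cexp (-π * (t * y) * (p.1 : ℂ) ^ 2) *
    cexp (-π * (y / t) * (p.2 : ℂ) ^ 2 + 2 * π * (I * (-(p.1 * x))) * p.2)

theorem G_norm (t : ℝ) (p : ℤ × ℤ) : ‖G x y t p‖ =
    Real.exp (-(π * (t * y) * (p.1 : ℝ) ^ 2)) * Real.exp (-(π * (y / t) * (p.2 : ℝ) ^ 2)) := by
  unfold G
  rw [norm_mul, Complex.norm_exp, Complex.norm_exp]
  congr 2
  · have e : (-π * (t * y) * (p.1 : ℂ) ^ 2 : ℂ) =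
        ((-(π * (t * y) * (p.1 : ℝ) ^ 2) : ℝ) : ℂ) := by
      push_cast
      ring
    rw [e, Complex.ofReal_re]
  · have e : (-π * (y / t) * (p.2 : ℂ) ^ 2 + 2 * π * (I * (-(p.1 * x))) * p.2 : ℂ) =
        ((-(π * (y / t) * (p.2 : ℝ) ^ 2) : ℝ) : ℂ) + ((-(2 * π * (p.1 * x) * p.2) : ℝ) : ℂ) * I := by
      push_cast
      ring
    rw [e, Complex.add_re, Complex.ofReal_re, Complex.re_ofReal_mul, Complex.I_re, mul_zero,
      add_zero]

theorem G_sum (hy : 0 < y) {t : ℝ} (ht : 0 < t) : Summable (G x y t) := by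
  apply Summable.of_norm
  refine (sumGG (c := π * (t * y)) (d := π * (y / t)) (by positivity) (by positivity)).congr ?_
  intro p
  rw [G_norm]

theorem G_swap {t : ℝ} (ht : t ≠ 0) (p : ℤ × ℤ) : G x y (1 / t) p = G x y t p.swap := by
  have htc : (t : ℂ) ≠ 0 := by exact_mod_cast ht
  unfold G
  rw [← Complex.exp_add, ← Complex.exp_add]
  congr 1
  simp only [Prod.fst_swap, Prod.snd_swap]
  push_cast
  field_simp
  ring

/-- Poisson summation in one variable -/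
theorem poi (hy : 0 < y) {t : ℝ} (ht : 0 < t) (m : ℤ) :
    ∑' n : ℤ, ((E x y t (m, n) : ℝ) : ℂ) =
      (((y / t) ^ (1 / 2 : ℝ) : ℝ) : ℂ) * ∑' n : ℤ, G x y t (m, n) := by
  have ha : 0 < (((y / t : ℝ) : ℂ)).re := by
    rw [Complex.ofReal_re]
    positivity
  have h1 := Complex.tsum_exp_neg_quadratic ha (I * (-(m * x)))
  have h2 : (((y / t : ℝ) : ℂ)) ^ (1 / 2 : ℂ) = (((y / t) ^ (1 / 2 : ℝ) : ℝ) : ℂ) := by
    rw [Complex.ofReal_cpow (by positivity)]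
    norm_num
  have hne : (((y / t) ^ (1 / 2 : ℝ) : ℝ) : ℂ) ≠ 0 := by
    have : (0 : ℝ) < (y / t) ^ (1 / 2 : ℝ) := by positivity
    exact_mod_cast this.ne'
  rw [h2] at h1
  have h3 : ∀ n : ℤ, ((E x y t (m, n) : ℝ) : ℂ) = cexp (-π * (t * y) * (m : ℂ) ^ 2) *
      cexp (-π / ((y / t : ℝ) : ℂ) * (n + I * (I * (-(m * x)))) ^ 2) := by
    intro n
    have hyc : (y : ℂ) ≠ 0 := by exact_mod_cast hy.ne'
    have htc : (t : ℂ) ≠ 0 := by exact_mod_cast ht.ne'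
    have e : (n + I * (I * (-(m * x))) : ℂ) = n + m * x := by
      linear_combination (-(m * x : ℂ)) * Complex.I_sq
    unfold E Q
    rw [e, Complex.ofReal_exp, ← Complex.exp_add]
    congr 1
    push_cast
    field_simp
    ring
  have h4 : ∀ n : ℤ, G x y t (m, n) = cexp (-π * (t * y) * (m : ℂ) ^ 2) *
      cexp (-π * ((y / t : ℝ) : ℂ) * n ^ 2 + 2 * π * (I * (-(m * x))) * n) := by
    intro n
    unfold G
    push_cast
    rfl
  simp only [h3, h4]
  rw [tsum_mul_left, tsum_mul_left, h1]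
  field_simp

theorem theta (hy : 0 < y) {t : ℝ} (ht : 0 < t) :
    ∑' p : ℤ × ℤ, ((E x y t p : ℝ) : ℂ) =
      (((y / t) ^ (1 / 2 : ℝ) : ℝ) : ℂ) * ∑' p : ℤ × ℤ, G x y t p := by
  have h1 : Summable fun p : ℤ × ℤ => ((E x y t p : ℝ) : ℂ) :=
    Complex.ofRealCLM.summable (E_sum x y hy ht)
  rw [h1.tsum_prod, (G_sum x y hy ht).tsum_prod, ← tsum_mul_left]
  exact tsum_congr fun m => poi x y hy ht m

theorem theta_inv (hy : 0 < y) {t : ℝ} (ht : 0 < t) :
    ∑' p : ℤ × ℤ, E x y (1 / t) p = t * ∑' p : ℤ × ℤ, E x y t p := by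
  have ht' : 0 < 1 / t := by positivity
  have h1 := theta x y hy ht
  have h2 := theta x y hy ht'
  have h3 : ∑' p : ℤ × ℤ, G x y (1 / t) p = ∑' p : ℤ × ℤ, G x y t p := by
    rw [← (Equiv.prodComm ℤ ℤ).tsum_eq (G x y t)]
    exact tsum_congr fun p => G_swap x y ht.ne' p
  rw [h3] at h2
  have h4 : ((y / (1 / t)) ^ (1 / 2 : ℝ) : ℝ) = t * (y / t) ^ (1 / 2 : ℝ) := by
    have e1 : y / (1 / t) = t ^ 2 * (y / t) := by
      field_simp
    rw [e1, Real.mul_rpow (by positivity) (by positivity)]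
    congr 1
    rw [← Real.sqrt_eq_rpow, Real.sqrt_sq ht.le]
  rw [h4] at h2
  have h5 : ((∑' p : ℤ × ℤ, E x y (1 / t) p : ℝ) : ℂ) =
      ((t * ∑' p : ℤ × ℤ, E x y t p : ℝ) : ℂ) := by
    rw [Complex.ofReal_mul, Complex.ofReal_tsum, Complex.ofReal_tsum, h2, h1]
    push_cast
    ring
  exact_mod_cast h5

end

theorem norm_sq_eq (z : ℍ) (p : ℤ × ℤ) :
    ‖(p.1 : ℂ) * (z : ℂ) + (p.2 : ℂ)‖ ^ 2 / z.im = Q z.re z.im p := by
  have hy := z.im_pos
  unfold Q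
  rw [← Complex.normSq_eq_norm_sq, Complex.normSq_apply]
  have e1 : ((p.1 : ℂ) * (z : ℂ) + (p.2 : ℂ)).re = p.1 * z.re + p.2 := by
    simp
  have e2 : ((p.1 : ℂ) * (z : ℂ) + (p.2 : ℂ)).im = p.1 * z.im := by
    simp
  rw [e1, e2]
  field_simp
  ring

theorem th1_eq (z : ℍ) {t : ℝ} (ht : 0 < t) :
    1 + th1 t z = ENNReal.ofReal (∑' p : ℤ × ℤ, E z.re z.im t p) := by
  have hy := z.im_pos
  have hE : ∀ p, 0 ≤ E z.re z.im t p := fun p => (Real.exp_pos _).le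
  rw [ENNReal.ofReal_tsum_of_nonneg hE (E_sum _ _ hy ht)]
  have h1 := ENNReal.summable.tsum_add_tsum_compl (s := ({0} : Set (ℤ × ℤ)))
    (f := fun p : ℤ × ℤ => ENNReal.ofReal (E z.re z.im t p)) ENNReal.summable
  rw [← h1]
  congr 1
  · rw [tsum_singleton (0 : ℤ × ℤ) (fun p => ENNReal.ofReal (E z.re z.im t p))]
    unfold E Q
    simp
  · unfold th1
    apply tsum_congr
    intro p
    show _ = ENNReal.ofReal (E z.re z.im t p.1)
    rw [norm_sq_eq]
    rfl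

theorem t_POI : S_POI := by
  intro z t ht
  have hy := z.im_pos
  have h1 := th1_eq z ht
  have h2 := th1_eq z (show 0 < 1 / t by positivity)
  refine ⟨?_, ?_⟩
  · intro h
    rw [h, add_top] at h1
    exact ENNReal.ofReal_ne_top h1.symm
  · rw [h1, h2, theta_inv _ _ hy ht, ENNReal.ofReal_mul ht.le]

end Pool.Agent.H127.BG
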